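import Pool.Agent.U162.SH.Stm

/-!
Project SH, package MIN: Minkowski's inequality.
-/

set_option autoImplicit false

open MeasureTheory Set Filter Topology
open scoped ENNReal NNReal

namespace Pool.Agent.U608.SH.MIN

open Pool.Agent.U162.SH

lemma cs (f g : ℕ → ℝ≥0∞) :
    ∑' j, f j * g j ≤ (∑' j, f j ^ 2) ^ (1 / 2 : ℝ) * (∑' j, g j ^ 2) ^ (1 / 2 : ℝ) := by
  rw [ENNReal.tsum_eq_iSup_sum]
  refine iSup_le fun s => ?_
  have hpq : (2:ℝ).HolderConjugate 2 := by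
    rw [Real.holderConjugate_iff]
    norm_num
  refine (ENNReal.inner_le_Lp_mul_Lq s f g hpq).trans ?_
  have e : ∀ h : ℕ → ℝ≥0∞, ∑ i ∈ s, h i ^ (2:ℝ) ≤ ∑' j, h j ^ 2 := by
    intro h
    simp only [ENNReal.rpow_two]
    exact ENNReal.sum_le_tsum s
  exact mul_le_mul' (ENNReal.rpow_le_rpow (e f) (by norm_num))
    (ENNReal.rpow_le_rpow (e g) (by norm_num))

/-- Minkowski's inequality for the `ℓ²` norm of an integral -/
lemma mink {Ω : Type*} [MeasurableSpace Ω] (μ : Measure Ω) (F : ℕ → Ω → ℝ≥0∞)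
    (hF : ∀ j, Measurable (F j)) :
    ∑' j, (∫⁻ τ, F j τ ∂μ) ^ 2 ≤ (∫⁻ τ, (∑' j, F j τ ^ 2) ^ (1 / 2 : ℝ) ∂μ) ^ 2 := by
  have hN : Measurable fun τ => (∑' j, F j τ ^ 2) ^ (1 / 2 : ℝ) :=
    (Measurable.ennreal_tsum fun j => (hF j).pow_const 2).pow_const _
  calc ∑' j, (∫⁻ τ, F j τ ∂μ) ^ 2 = ∑' j, ∫⁻ τ, F j τ * ∫⁻ τ', F j τ' ∂μ ∂μ := by
        refine tsum_congr fun j => ?_
        rw [lintegral_mul_const _ (hF j), sq]
    _ = ∫⁻ τ, ∑' j, F j τ * ∫⁻ τ', F j τ' ∂μ ∂μ := by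
        rw [lintegral_tsum fun j => ((hF j).mul_const _).aemeasurable]
    _ = ∫⁻ τ, ∫⁻ τ', ∑' j, F j τ * F j τ' ∂μ ∂μ := by
        refine lintegral_congr fun τ => ?_
        rw [lintegral_tsum fun j => ((hF j).const_mul _).aemeasurable]
        refine tsum_congr fun j => ?_
        rw [lintegral_const_mul _ (hF j)]
    _ ≤ ∫⁻ τ, ∫⁻ τ', (∑' j, F j τ ^ 2) ^ (1 / 2 : ℝ) * (∑' j, F j τ' ^ 2) ^ (1 / 2 : ℝ) ∂μ ∂μ :=
        lintegral_mono fun τ => lintegral_mono fun τ' => cs _ _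
    _ = ∫⁻ τ, (∑' j, F j τ ^ 2) ^ (1 / 2 : ℝ) *
          ∫⁻ τ', (∑' j, F j τ' ^ 2) ^ (1 / 2 : ℝ) ∂μ ∂μ := by
        refine lintegral_congr fun τ => ?_
        rw [lintegral_const_mul _ hN]
    _ = (∫⁻ τ, (∑' j, F j τ ^ 2) ^ (1 / 2 : ℝ) ∂μ) ^ 2 := by
        rw [lintegral_mul_const _ hN, sq]

lemma measurable_shl (φ : Kk → ℝ → ℝ≥0∞) (hφ : ∀ k, Measurable (φ k)) (j : ℕ) :
    Measurable fun τ => shl (fun k => φ k τ) j := by
  unfold shl
  refine Measurable.ennreal_tsum fun k => ?_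
  split_ifs
  · exact hφ k
  · exact measurable_const

lemma shl_lintegral (μ : Measure ℝ) (φ : Kk → ℝ → ℝ≥0∞) (hφ : ∀ k, Measurable (φ k)) (j : ℕ) :
    shl (fun k => ∫⁻ τ, φ k τ ∂μ) j = ∫⁻ τ, shl (fun k => φ k τ) j ∂μ := by
  unfold shl
  rw [lintegral_tsum]
  · refine tsum_congr fun k => ?_
    split_ifs
    · rfl
    · simp
  · intro k
    split_ifs
    · exact (hφ k).aemeasurable
    · exact aemeasurable_const

theorem t_MIN : S_MIN := by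
  intro T φ hφ
  unfold N2
  have h := mink (volume.restrict (Ioo 0 T)) (fun j τ => shl (fun k => φ k τ) j / 2 ^ j)
    (fun j => (measurable_shl φ hφ j).div_const _)
  refine le_trans (le_of_eq ?_) h
  refine tsum_congr fun j => ?_
  rw [shl_lintegral _ φ hφ j]
  simp only [div_eq_mul_inv]
  rw [lintegral_mul_const _ (measurable_shl φ hφ j)]

end Pool.Agent.U608.SH.MIN
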